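import Pool.Agent.Helper15.LP.Defs

/-!
MP_2f9829_co, module PARTM: the trivial character.
-/

set_option autoImplicit false

open Finset
open scoped Classical
open Pool.Agent.Helper15.LR

namespace Pool.Agent.Helper15.LP

noncomputable section

/-! ### Sums over pairs of levels -/

/-- total weight of the pairs with property `Q` -/
def PARTM_M {α : Type} [Fintype α] (w : α → ℝ) (Q : α → α → Prop) : ℝ :=
  ∑ p, ∑ q, (if Q p q then w p * w q else 0)

lemma PARTM_mono {α : Type} [Fintype α] {w : α → ℝ} (hw : ∀ p, 0 ≤ w p) {Q Q' : α → α → Prop}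
    (h : ∀ p q, w p ≠ 0 → w q ≠ 0 → Q p q → Q' p q) : PARTM_M w Q ≤ PARTM_M w Q' := by
  unfold PARTM_M
  refine sum_le_sum fun p _ => sum_le_sum fun q _ => ?_
  by_cases hp : w p = 0
  · simp [hp]
  by_cases hq : w q = 0
  · simp [hq]
  by_cases hQ : Q p q
  · rw [if_pos hQ, if_pos (h p q hp hq hQ)]
  · rw [if_neg hQ]
    split_ifs
    · exact mul_nonneg (hw p) (hw q)
    · exact le_rfl

lemma PARTM_or {α : Type} [Fintype α] {w : α → ℝ} (hw : ∀ p, 0 ≤ w p) (Q Q' : α → α → Prop) :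
    PARTM_M w (fun p q => Q p q ∨ Q' p q) ≤ PARTM_M w Q + PARTM_M w Q' := by
  unfold PARTM_M
  rw [← sum_add_distrib]
  refine sum_le_sum fun p _ => ?_
  rw [← sum_add_distrib]
  refine sum_le_sum fun q _ => ?_
  have h0 := mul_nonneg (hw p) (hw q)
  by_cases h1 : Q p q <;> by_cases h2 : Q' p q <;> simp [h1, h2, h0]

lemma PARTM_ex {α J : Type} [Fintype α] [Fintype J] {w : α → ℝ} (hw : ∀ p, 0 ≤ w p)
    (Q : J → α → α → Prop) :
    PARTM_M w (fun p q => ∃ j, Q j p q) ≤ ∑ j, PARTM_M w (Q j) := by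
  have e : ∑ j, PARTM_M w (Q j) = ∑ p, ∑ q, ∑ j, (if Q j p q then w p * w q else 0) := by
    unfold PARTM_M
    rw [sum_comm]
    refine sum_congr rfl fun p _ => ?_
    rw [sum_comm]
  rw [e]
  unfold PARTM_M
  refine sum_le_sum fun p _ => sum_le_sum fun q _ => ?_
  have h0 := mul_nonneg (hw p) (hw q)
  have h1 : ∀ j ∈ (univ : Finset J), 0 ≤ (if Q j p q then w p * w q else 0) := by
    intro j _
    split_ifs
    · exact h0
    · exact le_rfl
  by_cases h : ∃ j, Q j p q
  · rw [if_pos h]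
    obtain ⟨j, hj⟩ := h
    have := single_le_sum h1 (mem_univ j)
    simpa [hj] using this
  · rw [if_neg h]
    exact sum_nonneg h1

section
variable {V : Type} [Fintype V]

/-- marginals -/
lemma PARTM_marg {w : (V → Bool) × (V → Bool) → ℝ}
    (h2 : ∀ x, ∑ y, w (x, y) = (1 / 2) ^ Fintype.card V) (Q : (V → Bool) → (V → Bool) → Prop) :
    PARTM_M w (fun p q => Q p.1 q.1) =
      ((univ.filter (fun p : (V → Bool) × (V → Bool) => Q p.1 p.2)).card : ℝ) *
        (1 / 4) ^ Fintype.card V := by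
  unfold PARTM_M
  have e1 : ∀ a b : V → Bool, ∑ y, ∑ y', (if Q a b then w (a, y) * w (b, y') else 0)
      = if Q a b then (1 / 4 : ℝ) ^ Fintype.card V else 0 := by
    intro a b
    by_cases h : Q a b
    · simp only [if_pos h]
      simp only [← mul_sum, h2]
      rw [← sum_mul, h2, ← mul_pow]
      norm_num
    · simp only [if_neg h, sum_const_zero]
  calc ∑ p : (V → Bool) × (V → Bool), ∑ q : (V → Bool) × (V → Bool),
        (if Q p.1 q.1 then w p * w q else 0)
      = ∑ a, ∑ y, ∑ b, ∑ y', (if Q a b then w (a, y) * w (b, y') else 0) := by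
        rw [Fintype.sum_prod_type]
        refine sum_congr rfl fun a _ => sum_congr rfl fun y _ => ?_
        rw [Fintype.sum_prod_type]
    _ = ∑ a, ∑ b, ∑ y, ∑ y', (if Q a b then w (a, y) * w (b, y') else 0) := by
        refine sum_congr rfl fun a _ => ?_
        rw [sum_comm]
    _ = ∑ a, ∑ b, (if Q a b then (1 / 4 : ℝ) ^ Fintype.card V else 0) := by
        refine sum_congr rfl fun a _ => sum_congr rfl fun b _ => e1 a b
    _ = _ := by
        rw [← Fintype.sum_prod_type (f := fun p : (V → Bool) × (V → Bool) =>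
          if Q p.1 p.2 then (1 / 4 : ℝ) ^ Fintype.card V else 0), ← sum_filter, sum_const,
          nsmul_eq_mul]

lemma PARTM_marg_le {w : (V → Bool) × (V → Bool) → ℝ}
    (h2 : ∀ x, ∑ y, w (x, y) = (1 / 2) ^ Fintype.card V) (Q : (V → Bool) → (V → Bool) → Prop)
    {inst : DecidablePred (fun p : (V → Bool) × (V → Bool) => Q p.1 p.2)}
    {δ : ℝ} (h : ((@filter _ (fun p : (V → Bool) × (V → Bool) => Q p.1 p.2) inst univ).card : ℝ) ≤
      4 ^ Fintype.card V * δ) : PARTM_M w (fun p q => Q p.1 q.1) ≤ δ := by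
  rw [PARTM_marg h2]
  have e : (@filter _ (fun p : (V → Bool) × (V → Bool) => Q p.1 p.2) inst univ) =
      @filter _ (fun p : (V → Bool) × (V → Bool) => Q p.1 p.2)
        (fun _ => Classical.propDecidable _) univ := by
    ext p
    simp only [mem_filter]
  rw [e] at h
  have h4 : (0 : ℝ) < (1 / 4) ^ Fintype.card V := by positivity
  calc _ ≤ 4 ^ Fintype.card V * δ * (1 / 4) ^ Fintype.card V :=
        mul_le_mul_of_nonneg_right h h4.le
    _ = (4 * (1 / 4)) ^ Fintype.card V * δ := by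
        rw [mul_pow]
        ring
    _ = δ := by norm_num

/-- events which depend on the true signs of the second level -/
lemma PARTM_snd {w : (V → Bool) × (V → Bool) → ℝ}
    (h2 : ∀ x, ∑ y, w (x, y) = (1 / 2) ^ Fintype.card V)
    (Q : (V → Bool) → (V → Bool) → (V → Bool) → Prop) {δ : ℝ}
    (h : ∀ a b, ∑ y', (if Q a b y' then w (b, y') else 0) ≤ (1 / 2) ^ Fintype.card V * δ) :
    PARTM_M w (fun p q => Q p.1 q.1 q.2) ≤ δ := by
  unfold PARTM_M
  have e1 : ∀ a b : V → Bool, ∑ y, ∑ y', (if Q a b y' then w (a, y) * w (b, y') else 0)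
      ≤ (1 / 4 : ℝ) ^ Fintype.card V * δ := by
    intro a b
    have e2 : ∀ y, ∑ y', (if Q a b y' then w (a, y) * w (b, y') else 0)
        = w (a, y) * ∑ y', (if Q a b y' then w (b, y') else 0) := by
      intro y
      rw [mul_sum]
      refine sum_congr rfl fun y' _ => ?_
      split_ifs <;> simp
    simp only [e2]
    rw [← sum_mul, h2]
    have h3 := mul_le_mul_of_nonneg_left (h a b)
      (show (0 : ℝ) ≤ (1 / 2) ^ Fintype.card V by positivity)
    refine h3.trans (le_of_eq ?_)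
    rw [← mul_assoc, ← mul_pow]
    norm_num
  calc ∑ p : (V → Bool) × (V → Bool), ∑ q : (V → Bool) × (V → Bool),
        (if Q p.1 q.1 q.2 then w p * w q else 0)
      = ∑ a, ∑ y, ∑ b, ∑ y', (if Q a b y' then w (a, y) * w (b, y') else 0) := by
        rw [Fintype.sum_prod_type]
        refine sum_congr rfl fun a _ => sum_congr rfl fun y _ => ?_
        rw [Fintype.sum_prod_type]
    _ = ∑ a, ∑ b, ∑ y, ∑ y', (if Q a b y' then w (a, y) * w (b, y') else 0) := by
        refine sum_congr rfl fun a _ => ?_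
        rw [sum_comm]
    _ ≤ ∑ a : V → Bool, ∑ b : V → Bool, (1 / 4 : ℝ) ^ Fintype.card V * δ :=
        sum_le_sum fun a _ => sum_le_sum fun b _ => e1 a b
    _ = (4 * (1 / 4)) ^ Fintype.card V * δ := by
        simp only [sum_const, card_univ, nsmul_eq_mul]
        rw [Fintype.card_fun, Fintype.card_bool]
        push_cast
        rw [mul_pow, show (4 : ℝ) = 2 * 2 by norm_num, mul_pow]
        ring
    _ = δ := by norm_num

/-- events which depend on the true signs of the first level -/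
lemma PARTM_fst {w : (V → Bool) × (V → Bool) → ℝ}
    (h2 : ∀ x, ∑ y, w (x, y) = (1 / 2) ^ Fintype.card V)
    (Q : (V → Bool) → (V → Bool) → (V → Bool) → Prop) {δ : ℝ}
    (h : ∀ a b, ∑ y', (if Q a b y' then w (a, y') else 0) ≤ (1 / 2) ^ Fintype.card V * δ) :
    PARTM_M w (fun p q => Q p.1 q.1 p.2) ≤ δ := by
  have e : PARTM_M w (fun p q => Q p.1 q.1 p.2) = PARTM_M w (fun p q => Q q.1 p.1 q.2) := by
    unfold PARTM_M
    rw [sum_comm]
    refine sum_congr rfl fun p _ => sum_congr rfl fun q _ => ?_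
    rw [mul_comm]
  rw [e]
  exact PARTM_snd h2 (fun a b y => Q b a y) (fun a b => h b a)

/-! ### Flips -/

/-- flip the signs outside `Ve a b s` -/
def PARTM_fl (s : Bool) (ε : V → Bool) (p : (V → Bool) × (V → Bool)) :
    (V → Bool) × (V → Bool) :=
  (fun v => if Ve p.1 p.2 s v then p.1 v else xor (p.1 v) (ε v),
    fun v => if Ve p.1 p.2 s v then p.2 v else xor (p.2 v) (ε v))

omit [Fintype V] in
lemma PARTM_Ve (s : Bool) (ε : V → Bool) (p : (V → Bool) × (V → Bool)) (v : V) :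
    Ve (PARTM_fl s ε p).1 (PARTM_fl s ε p).2 s v ↔ Ve p.1 p.2 s v := by
  by_cases h : Ve p.1 p.2 s v
  · have e1 : (PARTM_fl s ε p).1 v = p.1 v := if_pos h
    have e2 : (PARTM_fl s ε p).2 v = p.2 v := if_pos h
    unfold Ve
    rw [e1, e2]
  · have e1 : (PARTM_fl s ε p).1 v = xor (p.1 v) (ε v) := if_neg h
    have e2 : (PARTM_fl s ε p).2 v = xor (p.2 v) (ε v) := if_neg h
    unfold Ve
    rw [e1, e2]
    cases p.1 v <;> cases p.2 v <;> cases ε v <;> simp

omit [Fintype V] in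
lemma PARTM_invol (s : Bool) (ε : V → Bool) (p : (V → Bool) × (V → Bool)) :
    PARTM_fl s ε (PARTM_fl s ε p) = p := by
  apply Prod.ext
  · funext v
    show (if Ve (PARTM_fl s ε p).1 (PARTM_fl s ε p).2 s v then (PARTM_fl s ε p).1 v
      else xor ((PARTM_fl s ε p).1 v) (ε v)) = p.1 v
    by_cases h : Ve p.1 p.2 s v
    · rw [if_pos ((PARTM_Ve s ε p v).2 h)]
      show (if Ve p.1 p.2 s v then p.1 v else xor (p.1 v) (ε v)) = p.1 v
      rw [if_pos h]
    · rw [if_neg (fun h' => h ((PARTM_Ve s ε p v).1 h'))]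
      show xor (if Ve p.1 p.2 s v then p.1 v else xor (p.1 v) (ε v)) (ε v) = p.1 v
      rw [if_neg h]
      cases p.1 v <;> cases ε v <;> rfl
  · funext v
    show (if Ve (PARTM_fl s ε p).1 (PARTM_fl s ε p).2 s v then (PARTM_fl s ε p).2 v
      else xor ((PARTM_fl s ε p).2 v) (ε v)) = p.2 v
    by_cases h : Ve p.1 p.2 s v
    · rw [if_pos ((PARTM_Ve s ε p v).2 h)]
      show (if Ve p.1 p.2 s v then p.2 v else xor (p.2 v) (ε v)) = p.2 v
      rw [if_pos h]
    · rw [if_neg (fun h' => h ((PARTM_Ve s ε p v).1 h'))]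
      show xor (if Ve p.1 p.2 s v then p.2 v else xor (p.2 v) (ε v)) (ε v) = p.2 v
      rw [if_neg h]
      cases p.2 v <;> cases ε v <;> rfl

/-- the potentials do not change -/
lemma PARTM_pot (G : SimpleGraph V) (s : Bool) (ε : V → Bool) (p : (V → Bool) × (V → Bool))
    (K : ℝ) (θ z : V → ℝ) :
    IsPot G (PARTM_fl s ε p).1 (PARTM_fl s ε p).2 s K θ z ↔ IsPot G p.1 p.2 s K θ z := by
  have hLap : ∀ u, Ve p.1 p.2 s u →
      Lap G (PARTM_fl s ε p).1 (PARTM_fl s ε p).2 s z u = Lap G p.1 p.2 s z u := by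
    intro u hu
    unfold Lap
    refine sum_congr ?_ fun _ _ => rfl
    refine filter_congr fun v _ => ?_
    rw [PARTM_Ve]
    refine and_congr_right fun hv => ?_
    have e1 : (PARTM_fl s ε p).2 v = p.2 v := if_pos hv
    have e2 : (PARTM_fl s ε p).2 u = p.2 u := if_pos hu
    rw [e1, e2]
  unfold IsPot
  refine and_congr ?_ ?_
  · refine forall_congr' fun u => ?_
    rw [PARTM_Ve]
  · refine forall_congr' fun u => ?_
    rw [PARTM_Ve]
    refine forall_congr' fun hu => ?_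
    rw [hLap u hu]

/-- averaging over the flips -/
lemma PARTM_avg (s : Bool) (E : (V → Bool) × (V → Bool) → Prop) (δ : ℝ)
    (h : ∀ p, ((univ.filter (fun ε : V → Bool => E (PARTM_fl s ε p))).card : ℝ) ≤
      2 ^ Fintype.card V * δ) :
    ((univ.filter (fun p : (V → Bool) × (V → Bool) => E p)).card : ℝ) ≤
      4 ^ Fintype.card V * δ := by
  have h1 : ∀ ε : V → Bool, (univ.filter (fun p : (V → Bool) × (V → Bool) => E p)).card
      = (univ.filter (fun p : (V → Bool) × (V → Bool) => E (PARTM_fl s ε p))).card := by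
    intro ε
    refine card_bij' (fun p _ => PARTM_fl s ε p) (fun p _ => PARTM_fl s ε p) ?_ ?_ ?_ ?_
    · intro p hp
      rw [mem_filter] at hp ⊢
      refine ⟨mem_univ _, ?_⟩
      rw [PARTM_invol]
      exact hp.2
    · intro p hp
      rw [mem_filter] at hp ⊢
      exact ⟨mem_univ _, hp.2⟩
    · intro p _
      exact PARTM_invol s ε p
    · intro p _
      exact PARTM_invol s ε p
  have h2 : (2 : ℝ) ^ Fintype.card V *
      ((univ.filter (fun p : (V → Bool) × (V → Bool) => E p)).card : ℝ) =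
      ∑ p : (V → Bool) × (V → Bool),
        ((univ.filter (fun ε : V → Bool => E (PARTM_fl s ε p))).card : ℝ) := by
    have e1 : ∑ _ε : V → Bool,
        ((univ.filter (fun p : (V → Bool) × (V → Bool) => E p)).card : ℝ)
        = (2 : ℝ) ^ Fintype.card V *
          ((univ.filter (fun p : (V → Bool) × (V → Bool) => E p)).card : ℝ) := by
      rw [sum_const, card_univ, nsmul_eq_mul, Fintype.card_fun, Fintype.card_bool]
      push_cast
      rfl
    rw [← e1]
    have e2 : ∀ ε : V → Bool, ((univ.filter (fun p : (V → Bool) × (V → Bool) => E p)).card : ℝ)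
        = ∑ p : (V → Bool) × (V → Bool), (if E (PARTM_fl s ε p) then (1 : ℝ) else 0) := by
      intro ε
      rw [h1 ε, sum_boole]
    rw [sum_congr rfl fun ε _ => e2 ε, sum_comm]
    refine sum_congr rfl fun p _ => ?_
    rw [sum_boole]
  have h3 : ∑ p : (V → Bool) × (V → Bool),
        ((univ.filter (fun ε : V → Bool => E (PARTM_fl s ε p))).card : ℝ) ≤
      ∑ _p : (V → Bool) × (V → Bool), (2 : ℝ) ^ Fintype.card V * δ := sum_le_sum fun p _ => h p
  rw [← h2, sum_const, card_univ, nsmul_eq_mul, Fintype.card_prod, Fintype.card_fun,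
    Fintype.card_bool] at h3
  push_cast at h3
  have h4 : (0 : ℝ) < 2 ^ Fintype.card V := by positivity
  have h5 : (4 : ℝ) ^ Fintype.card V = 2 ^ Fintype.card V * 2 ^ Fintype.card V := by
    rw [← mul_pow]
    norm_num
  rw [h5]
  have h6 : (2 : ℝ) ^ Fintype.card V *
      ((univ.filter (fun p : (V → Bool) × (V → Bool) => E p)).card : ℝ) ≤
      2 ^ Fintype.card V * (2 ^ Fintype.card V * 2 ^ Fintype.card V * δ) := by
    linarith
  exact le_of_mul_le_mul_left h6 h4

/-! ### Counting with random signs -/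

lemma PARTM_rade (hR : Rade_stmt) (hC : PPCount_stmt) (c : V → ℝ) (A s k : ℝ)
    (hA : 0 < A) (hc : ∑ v, c v ^ 2 ≤ A) (hs : 0 ≤ s) (hk : k ≤ s ^ 2 / (2 * A)) :
    ((univ.filter (fun x : V → Bool => s < |∑ v, c v * sgn (x v)|)).card : ℝ) ≤
      2 ^ Fintype.card V * (2 * Real.exp (-k)) := by
  have h := hR V c A s hA hc hs
  rw [hC, div_le_iff₀ (by positivity)] at h
  have h' : ((univ.filter (fun x : V → Bool => s < |∑ v, c v * sgn (x v)|)).card : ℝ) ≤
      2 * Real.exp (-(s ^ 2 / (2 * A))) * 2 ^ Fintype.card V := h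
  refine h'.trans ?_
  rw [mul_comm]
  refine mul_le_mul_of_nonneg_left ?_ (by positivity)
  exact mul_le_mul_of_nonneg_left (Real.exp_le_exp.2 (by linarith)) (by norm_num)

lemma PARTM_mu (hR : Rade_stmt) (hC : PPCount_stmt) (G : SimpleGraph V) (D m : ℕ) (R : Finset V)
    (hG : Reg G D) (hm : 1 ≤ m) (hD : 1 ≤ D) (hGR : GoodR G D m R) (v : V) :
    ((univ.filter (fun x : V → Bool => 1 / 2 < |mu G R x v|)).card : ℝ) ≤
      2 ^ Fintype.card V * (2 * Real.exp (-(3 * m))) := by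
  have hm' : (1 : ℝ) ≤ m := by exact_mod_cast hm
  have hD' : (1 : ℝ) ≤ D := by exact_mod_cast hD
  have e1 : ∀ x : V → Bool, mu G R x v = ∑ w, (if w ∈ (Nb G v).filter (fun w => w ∉ R) then
      -1 / NR G R w else 0) * sgn (x w) := by
    intro x
    unfold mu
    simp only [ite_mul, zero_mul]
    rw [← sum_neg_distrib, sum_ite_mem, univ_inter]
    refine sum_congr rfl fun w _ => by ring
  have e2 : ∑ w, (if w ∈ (Nb G v).filter (fun w => w ∉ R) then -1 / NR G R w else 0) ^ 2 ≤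
      1 / (25 * (m : ℝ)) := by
    have e3 : ∀ w, (if w ∈ (Nb G v).filter (fun w => w ∉ R) then -1 / NR G R w else 0) ^ 2
        = if w ∈ (Nb G v).filter (fun w => w ∉ R) then (-1 / NR G R w) ^ 2 else 0 := by
      intro w
      split_ifs
      · rfl
      · norm_num
    rw [sum_congr rfl fun w _ => e3 w, sum_ite_mem, univ_inter]
    have h1 : ∀ w ∈ (Nb G v).filter (fun w => w ∉ R),
        (-1 / NR G R w) ^ 2 ≤ 1 / (25 * ((m : ℝ) * D)) := by
      intro w _
      have h5 := (hGR w).1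
      have h6 : (0 : ℝ) < m * D := by positivity
      have h7 : 25 * ((m : ℝ) * D) ≤ NR G R w ^ 2 := by
        have h8 := mul_self_le_mul_self (by positivity) h5
        have h9 := Real.mul_self_sqrt h6.le
        nlinarith
      rw [div_pow, neg_one_sq]
      exact one_div_le_one_div_of_le (by positivity) h7
    have hcard : (((Nb G v).filter (fun w => w ∉ R)).card : ℝ) ≤ D := by
      have h2 : ((Nb G v).filter (fun w => w ∉ R)).card ≤ (Nb G v).card :=
        card_filter_le _ _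
      rw [hG v] at h2
      exact_mod_cast h2
    calc _ ≤ ∑ _w ∈ (Nb G v).filter (fun w => w ∉ R), 1 / (25 * ((m : ℝ) * D)) := sum_le_sum h1
      _ = (((Nb G v).filter (fun w => w ∉ R)).card : ℝ) * (1 / (25 * ((m : ℝ) * D))) := by
          rw [sum_const, nsmul_eq_mul]
      _ ≤ D * (1 / (25 * ((m : ℝ) * D))) := mul_le_mul_of_nonneg_right hcard (by positivity)
      _ = 1 / (25 * (m : ℝ)) := by field_simp
  have h := PARTM_rade hR hC _ (1 / (25 * (m : ℝ))) (1 / 2) (3 * m) (by positivity) e2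
    (by norm_num) (by
      have : (1 / 2 : ℝ) ^ 2 / (2 * (1 / (25 * (m : ℝ)))) = 25 / 8 * m := by
        field_simp
        norm_num
      rw [this]
      linarith)
  simp only [e1]
  exact h

/-- a count of sign vectors, as a count of pairs (first coordinate) -/
lemma PARTM_pair1 (Q : (V → Bool) → Prop) {δ : ℝ}
    (h : ((univ.filter (fun x : V → Bool => Q x)).card : ℝ) ≤ 2 ^ Fintype.card V * δ) :
    ((univ.filter (fun p : (V → Bool) × (V → Bool) => Q p.1)).card : ℝ) ≤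
      4 ^ Fintype.card V * δ := by
  have e : (univ.filter (fun p : (V → Bool) × (V → Bool) => Q p.1)) =
      (univ.filter (fun x : V → Bool => Q x)) ×ˢ (univ : Finset (V → Bool)) := by
    ext p
    simp
  rw [e, card_product, card_univ, Fintype.card_fun, Fintype.card_bool]
  push_cast
  calc _ ≤ 2 ^ Fintype.card V * δ * 2 ^ Fintype.card V :=
        mul_le_mul_of_nonneg_right h (by positivity)
    _ = (2 * 2) ^ Fintype.card V * δ := by
        rw [mul_pow]
        ring
    _ = _ := by norm_num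

/-- a count of sign vectors, as a count of pairs (second coordinate) -/
lemma PARTM_pair2 (Q : (V → Bool) → Prop) {δ : ℝ}
    (h : ((univ.filter (fun x : V → Bool => Q x)).card : ℝ) ≤ 2 ^ Fintype.card V * δ) :
    ((univ.filter (fun p : (V → Bool) × (V → Bool) => Q p.2)).card : ℝ) ≤
      4 ^ Fintype.card V * δ := by
  have e : (univ.filter (fun p : (V → Bool) × (V → Bool) => Q p.2)) =
      (univ : Finset (V → Bool)) ×ˢ (univ.filter (fun x : V → Bool => Q x)) := by
    ext p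
    simp
  rw [e, card_product, card_univ, Fintype.card_fun, Fintype.card_bool]
  push_cast
  calc _ ≤ 2 ^ Fintype.card V * (2 ^ Fintype.card V * δ) :=
        mul_le_mul_of_nonneg_left h (by positivity)
    _ = (2 * 2) ^ Fintype.card V * δ := by
        rw [mul_pow]
        ring
    _ = _ := by norm_num

/-! ### The three kinds of events -/

/-- the sum over the vertices outside `R` is large -/
def PARTM_E1 (G : SimpleGraph V) (D m : ℕ) (R : Finset V) (s : Bool) (u : V)
    (a b : V → Bool) : Prop :=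
  ∃ g : V → ℝ, IsPot G a b s (Real.sqrt D) (dl u) g ∧
    S2 (fun v => Av G g v - PR G R (Av G g) v) ≤ 300000 * m / D ∧
    1096 * m / Real.sqrt D < |∑ v, (if v ∉ R ∧ ¬ Ve a b s v then
      sgn (b v) * (Av G g v - PR G R (Av G g) v) else 0)|

/-- the deviation of the correctors is large -/
def PARTM_E2 (G : SimpleGraph V) (D m : ℕ) (R : Finset V) (s : Bool) (u : V)
    (a b x y : V → Bool) : Prop :=
  ∃ g : V → ℝ, IsPot G a b s (Real.sqrt D) (dl u) g ∧ S2 (Av G g) ≤ 144 ∧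
    Sm G D (Av G g) ≤ 22500 * m / D ∧ (∀ v ∈ R, |mu G R x v| ≤ 1 / 2) ∧
    4860 * (m * Real.sqrt m) / Real.sqrt D <
      |∑ v ∈ R, (sgn (y v) - mu G R x v) * Av G g v|

omit [Fintype V] in
lemma PARTM_sgn_xor (b e : Bool) : sgn (xor b e) = -sgn b * sgn e := by
  cases b <;> cases e <;> simp [sgn]

omit [Fintype V] in
lemma PARTM_sgn_sq (b : Bool) : sgn b ^ 2 = 1 := by
  cases b <;> simp [sgn]

lemma PARTM_E1_le (hL : Lap_stmt) (hR : Rade_stmt) (hC : PPCount_stmt) (G : SimpleGraph V)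
    (D m : ℕ) (R : Finset V) (hm : 1 ≤ m) (hD : 1 ≤ D) (s : Bool) (u : V) :
    ((univ.filter (fun p : (V → Bool) × (V → Bool) => PARTM_E1 G D m R s u p.1 p.2)).card : ℝ) ≤
      4 ^ Fintype.card V * (2 * Real.exp (-(2 * m))) := by
  have hm' : (1 : ℝ) ≤ m := by exact_mod_cast hm
  have hD' : (1 : ℝ) ≤ D := by exact_mod_cast hD
  have hsq : 0 < Real.sqrt D := Real.sqrt_pos.2 (by linarith)
  refine PARTM_avg s (fun p => PARTM_E1 G D m R s u p.1 p.2) _ fun p => ?_
  by_cases h : ∃ g : V → ℝ, IsPot G p.1 p.2 s (Real.sqrt D) (dl u) g ∧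
      S2 (fun v => Av G g v - PR G R (Av G g) v) ≤ 300000 * m / D
  · obtain ⟨g, hg, hS⟩ := h
    set z : V → ℝ := fun v => Av G g v - PR G R (Av G g) v with hz
    set c : V → ℝ := fun v => if v ∉ R ∧ ¬ Ve p.1 p.2 s v then -sgn (p.2 v) * z v else 0 with hc
    have hc2 : ∑ v, c v ^ 2 ≤ 300000 * m / D := by
      refine le_trans (sum_le_sum fun v _ => ?_) hS
      show (if v ∉ R ∧ ¬ Ve p.1 p.2 s v then -sgn (p.2 v) * z v else 0) ^ 2 ≤ z v ^ 2
      split_ifs
      · rw [mul_pow, neg_sq, PARTM_sgn_sq, one_mul]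
      · rw [zero_pow two_ne_zero]
        positivity
    have h1 := PARTM_rade hR hC c (300000 * m / D) (1096 * m / Real.sqrt D) (2 * m)
      (by positivity) hc2 (by positivity) (by
        have e : (1096 * (m : ℝ) / Real.sqrt D) ^ 2 / (2 * (300000 * m / D)) =
            1201216 / 600000 * m := by
          rw [div_pow, Real.sq_sqrt (by positivity)]
          field_simp
          norm_num
        rw [e]
        linarith)
    refine le_trans ?_ h1
    have h2 : (univ.filter (fun ε : V → Bool => PARTM_E1 G D m R s u (PARTM_fl s ε p).1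
        (PARTM_fl s ε p).2)) ⊆
        (univ.filter (fun x : V → Bool => 1096 * (m : ℝ) / Real.sqrt D <
          |∑ v, c v * sgn (x v)|)) := by
      intro ε hε
      rw [mem_filter] at hε ⊢
      refine ⟨mem_univ _, ?_⟩
      obtain ⟨g', hg', _, hlt⟩ := hε.2
      rw [PARTM_pot] at hg'
      have hgg : g' = g := (hL V G p.1 p.2 s (Real.sqrt D) hsq).2.1 _ _ _ hg' hg
      rw [hgg] at hlt
      refine lt_of_lt_of_eq hlt ?_
      congr 1
      refine sum_congr rfl fun v _ => ?_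
      rw [PARTM_Ve]
      show (if v ∉ R ∧ ¬ Ve p.1 p.2 s v then sgn ((PARTM_fl s ε p).2 v) * z v else 0) =
        (if v ∉ R ∧ ¬ Ve p.1 p.2 s v then -sgn (p.2 v) * z v else 0) * sgn (ε v)
      by_cases hv : v ∉ R ∧ ¬ Ve p.1 p.2 s v
      · rw [if_pos hv, if_pos hv]
        have e2 : (PARTM_fl s ε p).2 v = xor (p.2 v) (ε v) := if_neg hv.2
        rw [e2, PARTM_sgn_xor]
        ring
      · rw [if_neg hv, if_neg hv, zero_mul]
    exact_mod_cast card_le_card h2
  · have h0 : (univ.filter (fun ε : V → Bool => PARTM_E1 G D m R s u (PARTM_fl s ε p).1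
        (PARTM_fl s ε p).2)) = ∅ := by
      refine filter_eq_empty_iff.2 fun ε _ hε => h ?_
      obtain ⟨g', hg', hS, _⟩ := hε
      rw [PARTM_pot] at hg'
      exact ⟨g', hg', hS⟩
    rw [h0, card_empty]
    push_cast
    positivity

lemma PARTM_E2_le (hL : Lap_stmt) (G : SimpleGraph V) (D m : ℕ) (R : Finset V)
    (w : (V → Bool) × (V → Bool) → ℝ) (hm : 60 ≤ m) (hD : 1 ≤ D) (hW : LevelW G D m R w)
    (s : Bool) (u : V) (a b x : V → Bool) :
    ∑ y, (if PARTM_E2 G D m R s u a b x y then w (x, y) else 0) ≤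
      (1 / 2) ^ Fintype.card V * (2 * Real.exp (-(2 * m)) +
        2 * Fintype.card V * Real.exp (-(4 * m))) := by
  have hm' : (60 : ℝ) ≤ m := by exact_mod_cast hm
  have hD' : (1 : ℝ) ≤ D := by exact_mod_cast hD
  have hsq : 0 < Real.sqrt D := Real.sqrt_pos.2 (by linarith)
  by_cases h : ∃ g : V → ℝ, IsPot G a b s (Real.sqrt D) (dl u) g ∧ S2 (Av G g) ≤ 144 ∧
    Sm G D (Av G g) ≤ 22500 * m / D ∧ (∀ v ∈ R, |mu G R x v| ≤ 1 / 2)
  · obtain ⟨g, hg, hg2, hgS, hmu⟩ := h
    obtain ⟨w0, w1, w2, w3, w4⟩ := hW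
    have hT : 2 * (Sm G D (Av G g) + S2 (Av G g) / D) ≤ 46000 * m / D := by
      have h1 : S2 (Av G g) / D ≤ 144 / D := div_le_div_of_nonneg_right hg2 (by positivity)
      have h2 : (22500 * (m : ℝ) / D + 144 / D) * 2 ≤ 46000 * m / D := by
        rw [← add_div, div_mul_eq_mul_div]
        refine div_le_div_of_nonneg_right ?_ (by positivity)
        nlinarith
      linarith
    have h1 := w3 x hmu (Av G g) (46000 * m / D) (4860 * (m * Real.sqrt m) / Real.sqrt D) hT
      (by positivity) (by positivity)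
    refine le_trans (sum_le_sum fun y _ => ?_) (h1.trans ?_)
    · by_cases hy : PARTM_E2 G D m R s u a b x y
      · rw [if_pos hy]
        obtain ⟨g', hg', _, _, _, hlt⟩ := hy
        have hgg : g' = g := (hL V G a b s (Real.sqrt D) hsq).2.1 _ _ _ hg' hg
        rw [hgg] at hlt
        rw [if_pos hlt]
      · rw [if_neg hy]
        split_ifs
        · exact w0 _
        · exact le_rfl
    · refine mul_le_mul_of_nonneg_left ?_ (by positivity)
      refine add_le_add_left ?_ _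
      refine mul_le_mul_of_nonneg_left (Real.exp_le_exp.2 ?_) (by norm_num)
      have e : (4860 * ((m : ℝ) * Real.sqrt m) / Real.sqrt D) ^ 2 /
          (256 * m * (46000 * m / D)) = 23619600 / 11776000 * m := by
        rw [div_pow, Real.sq_sqrt (by positivity), mul_pow, mul_pow,
          Real.sq_sqrt (by positivity)]
        field_simp
        norm_num
      rw [e]
      linarith
  · have h0 : ∀ y, (if PARTM_E2 G D m R s u a b x y then w (x, y) else 0) = 0 := by
      intro y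
      rw [if_neg]
      rintro ⟨g, h1, h2, h3, h4, _⟩
      exact h ⟨g, h1, h2, h3, h4⟩
    rw [sum_congr rfl fun y _ => h0 y, sum_const_zero]
    positivity

/-! ### The identity -/

omit [Fintype V] in
lemma PARTM_kap (a b : V → Bool) (s : Bool) (v : V) :
    (sgn (b v) - sgn s * sgn (a v)) / 2 = if ¬ Ve a b s v then sgn (b v) else 0 := by
  unfold Ve
  cases a v <;> cases b v <;> cases s <;> simp [sgn] <;> norm_num

lemma PARTM_mus (G : SimpleGraph V) (R : Finset V) (x : V → Bool) (y : V → ℝ) :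
    ∑ v ∈ R, mu G R x v * y v = -∑ v ∈ Rᶜ, sgn (x v) * PR G R y v := by
  have e1 : ∀ v, mu G R x v * y v =
      -∑ t ∈ (Nb G v).filter (fun t => t ∉ R), sgn (x t) / NR G R t * y v := by
    intro v
    unfold mu
    rw [neg_mul, sum_mul]
  have e2 : ∀ t, sgn (x t) * PR G R y t =
      ∑ v ∈ (Nb G t).filter (fun v => v ∈ R), sgn (x t) / NR G R t * y v := by
    intro t
    unfold PR
    rw [← mul_sum]
    ring
  rw [sum_congr rfl fun v _ => e1 v, sum_congr rfl fun t _ => e2 t, sum_neg_distrib]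
  congr 1
  refine sum_comm' fun v t => ?_
  unfold Nb
  simp only [mem_filter, mem_univ, true_and, mem_compl]
  rw [G.adj_comm v t]
  tauto

lemma PARTM_ident (G : SimpleGraph V) (R : Finset V) (s : Bool) (a b a' b' : V → Bool)
    (y : V → ℝ) (ha : ∀ v, v ∉ R → a' v = a v) (hb : ∀ v, v ∉ R → b' v = b v) :
    ∑ v, (sgn (b' v) - sgn s * sgn (a' v)) / 2 * y v =
      ∑ v, (if v ∉ R ∧ ¬ Ve a b s v then sgn (b v) * (y v - PR G R y v) else 0) +
      1 / 2 * ∑ v ∈ R, (sgn (b' v) - mu G R b v) * y v -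
      sgn s / 2 * ∑ v ∈ R, (sgn (a' v) - mu G R a v) * y v := by
  have e1 : ∑ v, (if v ∉ R ∧ ¬ Ve a b s v then sgn (b v) * (y v - PR G R y v) else 0) =
      ∑ v ∈ Rᶜ, (sgn (b v) - sgn s * sgn (a v)) / 2 * (y v - PR G R y v) := by
    rw [← sum_add_sum_compl R]
    have e2 : ∑ v ∈ R, (if v ∉ R ∧ ¬ Ve a b s v then sgn (b v) * (y v - PR G R y v) else 0)
        = 0 := by
      refine sum_eq_zero fun v hv => ?_
      rw [if_neg]
      exact fun h => h.1 hv
    rw [e2, zero_add]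
    refine sum_congr rfl fun v hv => ?_
    rw [mem_compl] at hv
    rw [PARTM_kap]
    by_cases h : Ve a b s v
    · rw [if_neg (fun h' => h'.2 h), if_neg (fun h' => h' h), zero_mul]
    · rw [if_pos ⟨hv, h⟩, if_pos h]
  have e3 : ∑ v ∈ R, (sgn (b' v) - mu G R b v) * y v =
      ∑ v ∈ R, sgn (b' v) * y v + ∑ v ∈ Rᶜ, sgn (b v) * PR G R y v := by
    have := PARTM_mus G R b y
    simp only [sub_mul, sum_sub_distrib]
    rw [this]
    ring
  have e4 : ∑ v ∈ R, (sgn (a' v) - mu G R a v) * y v =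
      ∑ v ∈ R, sgn (a' v) * y v + ∑ v ∈ Rᶜ, sgn (a v) * PR G R y v := by
    have := PARTM_mus G R a y
    simp only [sub_mul, sum_sub_distrib]
    rw [this]
    ring
  rw [e1, e3, e4, ← sum_add_sum_compl R]
  have e5 : ∑ v ∈ Rᶜ, (sgn (b' v) - sgn s * sgn (a' v)) / 2 * y v =
      ∑ v ∈ Rᶜ, (sgn (b v) - sgn s * sgn (a v)) / 2 * y v := by
    refine sum_congr rfl fun v hv => ?_
    rw [mem_compl] at hv
    rw [ha v hv, hb v hv]
  rw [e5]
  have e6 : ∑ v ∈ R, (sgn (b' v) - sgn s * sgn (a' v)) / 2 * y v =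
      1 / 2 * ∑ v ∈ R, sgn (b' v) * y v - sgn s / 2 * ∑ v ∈ R, sgn (a' v) * y v := by
    rw [mul_sum, mul_sum, ← sum_sub_distrib]
    exact sum_congr rfl fun v _ => by ring
  have e7 : ∑ v ∈ Rᶜ, (sgn (b v) - sgn s * sgn (a v)) / 2 * (y v - PR G R y v) =
      ∑ v ∈ Rᶜ, (sgn (b v) - sgn s * sgn (a v)) / 2 * y v -
        1 / 2 * ∑ v ∈ Rᶜ, sgn (b v) * PR G R y v +
        sgn s / 2 * ∑ v ∈ Rᶜ, sgn (a v) * PR G R y v := by
    rw [mul_sum, mul_sum, ← sum_sub_distrib, ← sum_add_distrib]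
    exact sum_congr rfl fun v _ => by ring
  rw [e6, e7]
  ring

/-! ### Assembly -/

/-- the bad event of `PartM_stmt` -/
def PARTM_Bad (G : SimpleGraph V) (D m : ℕ) (p q : (V → Bool) × (V → Bool)) : Prop :=
  ∃ (s : Bool) (u : V) (g : V → ℝ), Ve p.1 q.1 s u ∧
    IsPot G p.1 q.1 s (Real.sqrt D) (dl u) g ∧
    6000 * (m * Real.sqrt m) / Real.sqrt D <
      |∑ v, (sgn (q.2 v) - sgn s * sgn (p.2 v)) / 2 * Av G g v|

lemma PARTM_key (hGr : Green_stmt) (G : SimpleGraph V) (D m : ℕ) (R : Finset V)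
    (w : (V → Bool) × (V → Bool) → ℝ) (hG : Reg G D) (hm : 60 ≤ m) (hD : 10 ^ 4 * m ≤ D)
    (hW : LevelW G D m R w) (p q : (V → Bool) × (V → Bool)) (hp : w p ≠ 0) (hq : w q ≠ 0)
    (hB : PARTM_Bad G D m p q) :
    (¬ GoodPair G D m p.1 q.1 ∨ (GoodPair G D m p.1 q.1 ∧ ¬ GoodRP G D m R p.1 q.1)) ∨
    ((∃ v, 1 / 2 < |mu G R p.1 v|) ∨ (∃ v, 1 / 2 < |mu G R q.1 v|)) ∨
    ((∃ j : Bool × V, PARTM_E1 G D m R j.1 j.2 p.1 q.1) ∨
      ((∃ j : Bool × V, PARTM_E2 G D m R j.1 j.2 p.1 q.1 p.1 p.2) ∨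
        (∃ j : Bool × V, PARTM_E2 G D m R j.1 j.2 p.1 q.1 q.1 q.2))) := by
  obtain ⟨s, u, g, hV, hg, hlt⟩ := hB
  by_contra hcon
  rw [not_or, not_or, not_or, not_or, not_or, not_or] at hcon
  obtain ⟨⟨c1, c2⟩, ⟨c3, c4⟩, c5, c6, c7⟩ := hcon
  have c1' : GoodPair G D m p.1 q.1 := by
    by_contra h
    exact c1 h
  have c2' : GoodRP G D m R p.1 q.1 := by
    by_contra h
    exact c2 ⟨c1', h⟩
  have hm' : (60 : ℝ) ≤ m := by exact_mod_cast hm
  have hD1 : 1 ≤ D := by omega
  have hD' : (1 : ℝ) ≤ D := by exact_mod_cast hD1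
  have hsq : 0 < Real.sqrt D := Real.sqrt_pos.2 (by linarith)
  obtain ⟨_, _, _, g4, g5⟩ := hGr V G D m p.1 q.1 s u g hG (by omega) (by omega) c1' hV hg
  have hS := c2' s u g hV hg
  have hmup : ∀ v ∈ R, |mu G R p.1 v| ≤ 1 / 2 := by
    intro v _
    by_contra h
    exact c3 ⟨v, not_le.1 h⟩
  have hmuq : ∀ v ∈ R, |mu G R q.1 v| ≤ 1 / 2 := by
    intro v _
    by_contra h
    exact c4 ⟨v, not_le.1 h⟩
  have b1 : |∑ v, (if v ∉ R ∧ ¬ Ve p.1 q.1 s v then
      sgn (q.1 v) * (Av G g v - PR G R (Av G g) v) else 0)| ≤ 1096 * m / Real.sqrt D := by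
    by_contra h
    exact c5 ⟨(s, u), g, hg, hS, not_le.1 h⟩
  have b2 : |∑ v ∈ R, (sgn (p.2 v) - mu G R p.1 v) * Av G g v| ≤
      4860 * (m * Real.sqrt m) / Real.sqrt D := by
    by_contra h
    exact c6 ⟨(s, u), g, hg, g4, g5, hmup, not_le.1 h⟩
  have b3 : |∑ v ∈ R, (sgn (q.2 v) - mu G R q.1 v) * Av G g v| ≤
      4860 * (m * Real.sqrt m) / Real.sqrt D := by
    by_contra h
    exact c7 ⟨(s, u), g, hg, g4, g5, hmuq, not_le.1 h⟩
  obtain ⟨w0, w1, w2, w3, w4⟩ := hW
  have hid := PARTM_ident G R s p.1 q.1 p.2 q.2 (Av G g)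
    (fun v hv => w2 p.1 p.2 v hp hv) (fun v hv => w2 q.1 q.2 v hq hv)
  rw [hid] at hlt
  have hs1 : |sgn s / 2| = 1 / 2 := by
    cases s <;> norm_num [sgn]
  have b4 : |sgn s / 2 * ∑ v ∈ R, (sgn (p.2 v) - mu G R p.1 v) * Av G g v| ≤
      1 / 2 * (4860 * (m * Real.sqrt m) / Real.sqrt D) := by
    rw [abs_mul, hs1]
    exact mul_le_mul_of_nonneg_left b2 (by norm_num)
  have b5 : |1 / 2 * ∑ v ∈ R, (sgn (q.2 v) - mu G R q.1 v) * Av G g v| ≤
      1 / 2 * (4860 * (m * Real.sqrt m) / Real.sqrt D) := by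
    rw [abs_mul, abs_of_pos (show (0 : ℝ) < 1 / 2 by norm_num)]
    exact mul_le_mul_of_nonneg_left b3 (by norm_num)
  have hsm : 1 ≤ Real.sqrt m := by
    rw [Real.one_le_sqrt]
    linarith
  have b6 : 1096 * (m : ℝ) / Real.sqrt D ≤ 1140 * (m * Real.sqrt m) / Real.sqrt D := by
    refine div_le_div_of_nonneg_right ?_ hsq.le
    nlinarith
  have b7 : 1140 * ((m : ℝ) * Real.sqrt m) / Real.sqrt D +
      4860 * (m * Real.sqrt m) / Real.sqrt D = 6000 * (m * Real.sqrt m) / Real.sqrt D := by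
    rw [← add_div]
    ring
  have b8 := abs_sub (∑ v, (if v ∉ R ∧ ¬ Ve p.1 q.1 s v then
      sgn (q.1 v) * (Av G g v - PR G R (Av G g) v) else 0) +
      1 / 2 * ∑ v ∈ R, (sgn (q.2 v) - mu G R q.1 v) * Av G g v)
      (sgn s / 2 * ∑ v ∈ R, (sgn (p.2 v) - mu G R p.1 v) * Av G g v)
  have b9 := abs_add_le (∑ v, (if v ∉ R ∧ ¬ Ve p.1 q.1 s v then
      sgn (q.1 v) * (Av G g v - PR G R (Av G g) v) else 0))
      (1 / 2 * ∑ v ∈ R, (sgn (q.2 v) - mu G R q.1 v) * Av G g v)
  linarith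

lemma PARTM_num (m : ℕ) (N : ℝ) (hm : 60 ≤ m) (hN0 : 0 ≤ N) (hN : N ≤ Real.exp (m / 100)) :
    (Real.exp (-m) + Real.exp (-m)) +
      ((N * (2 * Real.exp (-(3 * m))) + N * (2 * Real.exp (-(3 * m)))) +
        (2 * N * (2 * Real.exp (-(2 * m))) +
          (2 * N * (2 * Real.exp (-(2 * m)) + 2 * N * Real.exp (-(4 * m))) +
            2 * N * (2 * Real.exp (-(2 * m)) + 2 * N * Real.exp (-(4 * m)))))) ≤
      3 * Real.exp (-m) := by
  have hm' : (60 : ℝ) ≤ m := by exact_mod_cast hm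
  set x := Real.exp (-(m : ℝ)) with hx
  have hx0 : 0 < x := Real.exp_pos _
  have hx1 : x ≤ 1 := by
    rw [hx]
    exact Real.exp_le_one_iff.2 (by linarith)
  have e2 : Real.exp (-(2 * (m : ℝ))) = x * x := by
    rw [hx, ← Real.exp_add]
    congr 1
    ring
  have e3 : Real.exp (-(3 * (m : ℝ))) = x * x * x := by
    rw [hx, ← Real.exp_add, ← Real.exp_add]
    congr 1
    ring
  have e4 : Real.exp (-(4 * (m : ℝ))) = x * x * x * x := by
    rw [hx, ← Real.exp_add, ← Real.exp_add, ← Real.exp_add]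
    congr 1
    ring
  rw [e2, e3, e4]
  have hd : N * x ≤ 1 / 60 := by
    have h1 : N * x ≤ Real.exp (m / 100) * x := mul_le_mul_of_nonneg_right hN hx0.le
    have h2 : Real.exp (m / 100) * x = Real.exp (-(99 * m / 100)) := by
      rw [hx, ← Real.exp_add]
      congr 1
      ring
    have h3 : Real.exp (-(99 * (m : ℝ) / 100)) ≤ 1 / 60 := by
      rw [Real.exp_neg, ← one_div]
      refine one_div_le_one_div_of_le (by norm_num) ?_
      have := Real.add_one_le_exp (99 * (m : ℝ) / 100)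
      linarith
    linarith
  set d := N * x with hdd
  have hd0 : 0 ≤ d := by positivity
  have f1 : N * (2 * (x * x * x)) = 2 * d * (x * x) := by rw [hdd]; ring
  have f2 : 2 * N * (2 * (x * x)) = 4 * d * x := by rw [hdd]; ring
  have f3 : 2 * N * (2 * (x * x) + 2 * N * (x * x * x * x)) = 4 * d * x + 4 * d * d * (x * x) := by
    rw [hdd]; ring
  rw [f1, f2, f3]
  have g1 : 2 * d * (x * x) ≤ 2 * d * x := by
    have : x * x ≤ x := by nlinarith
    exact mul_le_mul_of_nonneg_left this (by linarith)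
  have g2 : 4 * d * d * (x * x) ≤ 4 * d * x := by
    have h1 : x * x ≤ x := by nlinarith
    have h2 : 4 * d * d ≤ 4 * d := by nlinarith
    exact mul_le_mul h2 h1 (by positivity) (by linarith)
  have g3 : d * x ≤ 1 / 60 * x := mul_le_mul_of_nonneg_right hd hx0.le
  nlinarith

end

theorem lp_PARTM (hGP : GoodPair_stmt) (hGr : Green_stmt) (hL : Lap_stmt) (hR : Rade_stmt)
    (hC : PPCount_stmt) : PartM_stmt := by
  intro V _ G D m R w hG hm hN hD hGR hRP hW
  have hD1 : 1 ≤ D := by omega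
  have hm1 : 1 ≤ m := by omega
  have w0 := hW.1
  have w1 := hW.2.1
  set N : ℝ := (Fintype.card V : ℝ) with hNN
  have hN0 : 0 ≤ N := Nat.cast_nonneg _
  have a1 : PARTM_M w (fun p q => ¬ GoodPair G D m p.1 q.1) ≤ Real.exp (-m) :=
    PARTM_marg_le w1 (fun a b => ¬ GoodPair G D m a b) (hGP V G D m hG hD1 hm hN)
  have a2 : PARTM_M w (fun p q => GoodPair G D m p.1 q.1 ∧ ¬ GoodRP G D m R p.1 q.1) ≤
      Real.exp (-m) :=
    PARTM_marg_le w1 (fun a b => GoodPair G D m a b ∧ ¬ GoodRP G D m R a b) hRP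
  have a3 : PARTM_M w (fun p q => ∃ v, 1 / 2 < |mu G R p.1 v|) ≤
      N * (2 * Real.exp (-(3 * m))) := by
    refine (PARTM_ex w0 (fun v p q => 1 / 2 < |mu G R p.1 v|)).trans ?_
    have h1 : ∀ v ∈ (univ : Finset V), PARTM_M w (fun p q => 1 / 2 < |mu G R p.1 v|) ≤
        2 * Real.exp (-(3 * m)) := fun v _ =>
      PARTM_marg_le w1 (fun a b => 1 / 2 < |mu G R a v|)
        (PARTM_pair1 (fun a => 1 / 2 < |mu G R a v|) (PARTM_mu hR hC G D m R hG hm1 hD1 hGR v))
    refine (sum_le_sum h1).trans (le_of_eq ?_)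
    rw [sum_const, card_univ, nsmul_eq_mul]
  have a4 : PARTM_M w (fun p q => ∃ v, 1 / 2 < |mu G R q.1 v|) ≤
      N * (2 * Real.exp (-(3 * m))) := by
    refine (PARTM_ex w0 (fun v p q => 1 / 2 < |mu G R q.1 v|)).trans ?_
    have h1 : ∀ v ∈ (univ : Finset V), PARTM_M w (fun p q => 1 / 2 < |mu G R q.1 v|) ≤
        2 * Real.exp (-(3 * m)) := fun v _ =>
      PARTM_marg_le w1 (fun a b => 1 / 2 < |mu G R b v|)
        (PARTM_pair2 (fun a => 1 / 2 < |mu G R a v|) (PARTM_mu hR hC G D m R hG hm1 hD1 hGR v))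
    refine (sum_le_sum h1).trans (le_of_eq ?_)
    rw [sum_const, card_univ, nsmul_eq_mul]
  have hcard : ((Fintype.card (Bool × V) : ℕ) : ℝ) = 2 * N := by
    rw [Fintype.card_prod, Fintype.card_bool]
    push_cast
    rfl
  have a5 : PARTM_M w (fun p q => ∃ j : Bool × V, PARTM_E1 G D m R j.1 j.2 p.1 q.1) ≤
      2 * N * (2 * Real.exp (-(2 * m))) := by
    refine (PARTM_ex w0 (fun (j : Bool × V) p q => PARTM_E1 G D m R j.1 j.2 p.1 q.1)).trans ?_
    have h1 : ∀ j ∈ (univ : Finset (Bool × V)),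
        PARTM_M w (fun p q => PARTM_E1 G D m R j.1 j.2 p.1 q.1) ≤
        2 * Real.exp (-(2 * m)) := fun j _ =>
      PARTM_marg_le w1 (fun a b => PARTM_E1 G D m R j.1 j.2 a b)
        (PARTM_E1_le hL hR hC G D m R hm1 hD1 j.1 j.2)
    refine (sum_le_sum h1).trans (le_of_eq ?_)
    rw [sum_const, card_univ, nsmul_eq_mul, hcard]
  have a6 : PARTM_M w (fun p q => ∃ j : Bool × V, PARTM_E2 G D m R j.1 j.2 p.1 q.1 p.1 p.2) ≤
      2 * N * (2 * Real.exp (-(2 * m)) + 2 * N * Real.exp (-(4 * m))) := by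
    refine (PARTM_ex w0
      (fun (j : Bool × V) p q => PARTM_E2 G D m R j.1 j.2 p.1 q.1 p.1 p.2)).trans ?_
    have h1 : ∀ j ∈ (univ : Finset (Bool × V)),
        PARTM_M w (fun p q => PARTM_E2 G D m R j.1 j.2 p.1 q.1 p.1 p.2) ≤
        2 * Real.exp (-(2 * m)) + 2 * N * Real.exp (-(4 * m)) := fun j _ =>
      PARTM_fst w1 (fun a b y => PARTM_E2 G D m R j.1 j.2 a b a y)
        (fun a b => PARTM_E2_le hL G D m R w hm hD1 hW j.1 j.2 a b a)
    refine (sum_le_sum h1).trans (le_of_eq ?_)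
    rw [sum_const, card_univ, nsmul_eq_mul, hcard]
  have a7 : PARTM_M w (fun p q => ∃ j : Bool × V, PARTM_E2 G D m R j.1 j.2 p.1 q.1 q.1 q.2) ≤
      2 * N * (2 * Real.exp (-(2 * m)) + 2 * N * Real.exp (-(4 * m))) := by
    refine (PARTM_ex w0
      (fun (j : Bool × V) p q => PARTM_E2 G D m R j.1 j.2 p.1 q.1 q.1 q.2)).trans ?_
    have h1 : ∀ j ∈ (univ : Finset (Bool × V)),
        PARTM_M w (fun p q => PARTM_E2 G D m R j.1 j.2 p.1 q.1 q.1 q.2) ≤
        2 * Real.exp (-(2 * m)) + 2 * N * Real.exp (-(4 * m)) := fun j _ =>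
      PARTM_snd w1 (fun a b y => PARTM_E2 G D m R j.1 j.2 a b b y)
        (fun a b => PARTM_E2_le hL G D m R w hm hD1 hW j.1 j.2 a b b)
    refine (sum_le_sum h1).trans (le_of_eq ?_)
    rw [sum_const, card_univ, nsmul_eq_mul, hcard]
  have hmain : PARTM_M w (fun p q => PARTM_Bad G D m p q) ≤
      (Real.exp (-m) + Real.exp (-m)) +
      ((N * (2 * Real.exp (-(3 * m))) + N * (2 * Real.exp (-(3 * m)))) +
        (2 * N * (2 * Real.exp (-(2 * m))) +
          (2 * N * (2 * Real.exp (-(2 * m)) + 2 * N * Real.exp (-(4 * m))) +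
            2 * N * (2 * Real.exp (-(2 * m)) + 2 * N * Real.exp (-(4 * m)))))) := by
    refine (PARTM_mono w0 (fun p q hp hq hB =>
      PARTM_key hGr G D m R w hG hm hD hW p q hp hq hB)).trans ?_
    refine (PARTM_or w0 _ _).trans (add_le_add ?_ ?_)
    · exact (PARTM_or w0 _ _).trans (add_le_add a1 a2)
    · refine (PARTM_or w0 _ _).trans (add_le_add ?_ ?_)
      · exact (PARTM_or w0 _ _).trans (add_le_add a3 a4)
      · refine (PARTM_or w0 _ _).trans (add_le_add a5 ?_)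
        exact (PARTM_or w0 _ _).trans (add_le_add a6 a7)
  refine le_trans (le_of_eq ?_) (hmain.trans (PARTM_num m N hm hN0 hN))
  unfold PARTM_M PARTM_Bad
  refine sum_congr rfl fun p _ => sum_congr rfl fun q _ => ?_
  split_ifs with h1
  · rfl
  · rfl

end

end Pool.Agent.Helper15.LP
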